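import Pool.Agent.T9h32.OR.Spec

/-!
# Ordinary representations: an integral polynomial which vanishes wherever the relations have a
solution (adaptation of helper32's T9h32/GT/Pol.lean)
-/

set_option autoImplicit false

namespace Pool.Agent.T9h65.OR

open Finset MvPolynomial
open Pool.Agent.T9h32.GT (Off Var pt om)
open Pool.Agent.T9h32.OR

section

variable (ι : Type) [Fintype ι] [DecidableEq ι]

/-- the unknowns: the coordinates of the vectors, `c`, `d` and the inverse of a determinant -/
abbrev Unk : Type := (ι ⊕ ι) ⊕ Fin 3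

/-- the ring of parameters -/
abbrev PR : Type := MvPolynomial (VarO ι) ℤ

/-- the ring of the unknowns over the ring of parameters -/
abbrev UR : Type := MvPolynomial (Unk ι) (PR ι)

variable {ι}

/-- `λ i j` -/
noncomputable def lamP (i j : ι) : UR ι :=
  if h : i ≠ j then C (X (Sum.inl (Sum.inl ⟨(i, j), h⟩))) else 0

/-- `u i` -/
noncomputable def uP (i : ι) : UR ι := C (X (Sum.inl (Sum.inr i)))

/-- `b i` -/
noncomputable def bP (i : ι) : UR ι := C (X (Sum.inr i))

/-- first coordinate -/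
noncomputable def alP (i : ι) : UR ι := X (Sum.inl (Sum.inl i))

/-- second coordinate -/
noncomputable def beP (i : ι) : UR ι := X (Sum.inl (Sum.inr i))

/-- `c` -/
noncomputable def cP : UR ι := X (Sum.inr 0)

/-- `d` -/
noncomputable def dP : UR ι := X (Sum.inr 1)

/-- the inverse of the determinant -/
noncomputable def tP : UR ι := X (Sum.inr 2)

/-- the ideal of the relations -/
noncomputable def idl (e : ℤ) (a b : ι) : Ideal (UR ι) :=
  Ideal.span (Set.range (fun i : ι => 2 * ∑ j, lamP i j * om alP beP j i * alP j -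
      uP i * ((cP - (e : UR ι)) * alP i + dP * beP i)) ∪
    Set.range (fun i : ι => 2 * ∑ j, lamP i j * om alP beP j i * beP j -
      (-(uP i * ((cP + (e : UR ι)) * beP i)))) ∪
    {∑ j, bP j * (beP j * beP j)} ∪ {tP * om alP beP a b - 1})

omit [Fintype ι] [DecidableEq ι] in
theorem exists_field_of_prime {A : Type} [CommRing A] (q : Ideal A) [q.IsPrime] :
    ∃ (L : Type) (_ : Field L) (ψ : A →+* L), ∀ x, ψ x = 0 ↔ x ∈ q := by
  refine ⟨FractionRing (A ⧸ q), inferInstance,
    (algebraMap (A ⧸ q) (FractionRing (A ⧸ q))).comp (Ideal.Quotient.mk q), fun x => ?_⟩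
  rw [RingHom.comp_apply, map_eq_zero_iff _ (IsFractionRing.injective (A ⧸ q) (FractionRing (A ⧸ q))),
    Ideal.Quotient.eq_zero_iff_mem]

theorem exists_poly_one (hG : StGeneric) (e : ℤ) (a b : ι) :
    ∃ P : PR ι, P ≠ 0 ∧ (C P : UR ι) ∈ idl e a b := by
  by_contra hcon
  push Not at hcon
  let T : Submonoid (UR ι) := (nonZeroDivisors (PR ι)).map (C : PR ι →+* UR ι)
  have hdisj : Disjoint (idl e a b : Set (UR ι)) T := by
    rw [Set.disjoint_left]
    rintro x hx ⟨P, hP, rfl⟩
    exact hcon P (nonZeroDivisors.ne_zero hP) hx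
  obtain ⟨q, hq, hIq, hqT⟩ := Ideal.exists_le_prime_disjoint (idl e a b) T hdisj
  obtain ⟨L, iL, ψ, hψ⟩ := exists_field_of_prime q
  have hz : ∀ x ∈ idl e a b, ψ x = 0 := fun x hx => (hψ x).2 (hIq hx)
  have hC : ∀ P : PR ι, ψ (C P) = 0 → P = 0 := by
    intro P hP
    by_contra h0
    exact Set.disjoint_left.1 hqT ((hψ _).1 hP)
      ⟨P, mem_nonZeroDivisors_of_ne_zero h0, rfl⟩
  have hom' : ∀ i j : ι, ψ (om alP beP i j) = om (fun i => ψ (alP i)) (fun i => ψ (beP i)) i j := by
    intro i j
    unfold om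
    rw [map_sub, map_mul, map_mul]
  have hX : AlgebraicIndependent ℤ (ptO (fun i j => ψ (lamP i j)) (fun i => ψ (uP i))
      (fun i => ψ (bP i))) := by
    rw [algebraicIndependent_iff]
    intro P hP
    apply hC
    rw [← hP]
    have h1 : (aeval (ptO (fun i j : ι => ψ (lamP i j)) (fun i : ι => ψ (uP i))
        (fun i : ι => ψ (bP i))) : PR ι →ₐ[ℤ] L) =
        (ψ.comp (C : PR ι →+* UR ι)).toIntAlgHom := by
      refine MvPolynomial.algHom_ext fun v => ?_
      rw [aeval_X]
      rcases v with (⟨⟨i, j⟩, h⟩ | i) | i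
      · show ψ (lamP i j) = ψ (C (X (Sum.inl (Sum.inl ⟨(i, j), h⟩))))
        unfold lamP
        rw [dif_pos h]
      · rfl
      · rfl
    rw [h1]
    rfl
  have h0 := hG L ι (fun i j => ψ (lamP i j)) (fun i => ψ (uP i)) (fun i => ψ (bP i)) e
    (fun i => ψ (alP i)) (fun i => ψ (beP i)) (ψ cP) (ψ dP)
    ⟨fun i => by
      have h := hz _ (Ideal.subset_span (Or.inl (Or.inl (Or.inl ⟨i, rfl⟩))))
      rw [map_sub, sub_eq_zero] at h
      simp only [map_mul, map_sum, map_intCast, map_sub, map_add, hom', map_ofNat] at h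
      exact h,
    fun i => by
      have h := hz _ (Ideal.subset_span (Or.inl (Or.inl (Or.inr ⟨i, rfl⟩))))
      rw [map_sub, sub_eq_zero] at h
      simp only [map_mul, map_sum, map_intCast, map_neg, map_add, hom', map_ofNat] at h
      exact h,
    by
      have h := hz _ (Ideal.subset_span (Or.inl (Or.inr rfl)))
      simp only [map_mul, map_sum] at h
      exact h⟩ hX a b
  have h := hz _ (Ideal.subset_span (Or.inr rfl))
  rw [map_sub, map_mul, hom', h0, mul_zero, zero_sub, map_one, neg_eq_zero] at h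
  exact one_ne_zero h

theorem eval_zero_of {k : Type} [Field k] {lam : ι → ι → k} {u bb : ι → k} {e : ℤ} {a b : ι}
    {P : PR ι} (hP : (C P : UR ι) ∈ idl e a b) {α β : ι → k} {c d : k}
    (hR : Rel lam u bb e α β c d) (hab : om α β a b ≠ 0) : aeval (ptO lam u bb) P = 0 := by
  obtain ⟨h1, h2, h3⟩ := hR
  let φ : UR ι →+* k := eval₂Hom ((aeval (ptO lam u bb) : PR ι →ₐ[ℤ] k) : PR ι →+* k)
    (Sum.elim (Sum.elim α β) ![c, d, (om α β a b)⁻¹])
  have hφα : ∀ i, φ (alP i) = α i := fun i => by simp [φ, alP]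
  have hφβ : ∀ i, φ (beP i) = β i := fun i => by simp [φ, beP]
  have hφc : φ cP = c := by simp [φ, cP]
  have hφd : φ dP = d := by simp [φ, dP]
  have hφt : φ tP = (om α β a b)⁻¹ := by simp [φ, tP]
  have hφu : ∀ i, φ (uP i) = u i := fun i => by simp [φ, uP, ptO, pt]
  have hφb : ∀ i, φ (bP i) = bb i := fun i => by simp [φ, bP, ptO]
  have hφo : ∀ i j, φ (om alP beP i j) = om α β i j := by
    intro i j
    unfold om
    rw [map_sub, map_mul, map_mul, hφα, hφα, hφβ, hφβ]
  have hφl : ∀ i j, φ (lamP i j) * om α β j i = lam i j * om α β j i := by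
    intro i j
    unfold lamP
    split_ifs with h
    · have : φ (C (X (Sum.inl (Sum.inl ⟨(i, j), h⟩)))) = lam i j := by simp [φ, ptO, pt]
      rw [this]
    · have h' : i = j := not_not.1 h
      subst h'
      have : om α β i i = 0 := by unfold om; ring
      rw [this, mul_zero, mul_zero]
  have hker : idl e a b ≤ RingHom.ker φ := by
    unfold idl
    rw [Ideal.span_le]
    rintro x (((⟨i, rfl⟩ | ⟨i, rfl⟩) | rfl) | rfl)
    · rw [SetLike.mem_coe, RingHom.mem_ker, map_sub, sub_eq_zero]
      simp only [map_mul, map_sum, map_intCast, map_sub, map_add, map_ofNat, hφo, hφα, hφβ, hφc,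
        hφd, hφu, hφl]
      exact h1 i
    · rw [SetLike.mem_coe, RingHom.mem_ker, map_sub, sub_eq_zero]
      simp only [map_mul, map_sum, map_intCast, map_neg, map_add, map_ofNat, hφo, hφβ, hφc,
        hφu, hφl]
      exact h2 i
    · rw [SetLike.mem_coe, RingHom.mem_ker]
      simp only [map_mul, map_sum, hφβ, hφb]
      exact h3
    · rw [SetLike.mem_coe, RingHom.mem_ker, map_sub, map_mul, map_one, hφt, hφo,
        inv_mul_cancel₀ hab, sub_self]
  have h := hker hP
  rw [RingHom.mem_ker] at h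
  simpa [φ] using h

end

/-- **The polynomial.** -/
theorem poly : StGeneric → StPoly := by
  intro hG ι _ _
  classical
  choose P hP0 hP using fun (e : ℤ) (a b : ι) => exists_poly_one hG e a b
  refine ⟨∏ x : ι × ι, (P 0 x.1 x.2 * P 1 x.1 x.2),
    Finset.prod_ne_zero_iff.2 fun x _ => mul_ne_zero (hP0 _ _ _) (hP0 _ _ _), ?_⟩
  intro k _ lam u b hne e he α β c d hR i j
  by_contra hij
  apply hne
  rw [map_prod]
  refine Finset.prod_eq_zero (mem_univ (i, j)) ?_
  rw [map_mul]
  rcases he with rfl | rfl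
  · rw [eval_zero_of (hP 0 i j) hR hij, zero_mul]
  · rw [eval_zero_of (hP 1 i j) hR hij, mul_zero]

end Pool.Agent.T9h65.OR
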